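import Mathlib
import Pool.Agent.Y1.KN.Stm8
import Pool.Agent.Y1.KN.Proj

/-!
# The number of the classes of odd minimal spaces with a reflection (project KN of helper1)
-/

set_option autoImplicit false
set_option linter.unusedSectionVars false

namespace Pool.Agent.Y497.KN

open Finset Module Pool.Agent.TH170.MF Pool.Agent.TH170.QC Pool.Agent.TH170.QE Pool.Agent.Y1.KN

section refl

variable {G X : Type} [Group G] [Fintype G] [MulAction G X] [Fintype X]

/-- the odd part for `s` -/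
def oddPart (s : G) (S : Submodule ℚ (X → ℚ)) : Submodule ℚ (X → ℚ) where
  carrier := {u | u ∈ S ∧ ∀ x, u (s • x) = - u x}
  zero_mem' := ⟨S.zero_mem, fun x => by simp⟩
  add_mem' := by
    rintro u v ⟨h1, h2⟩ ⟨h3, h4⟩
    exact ⟨S.add_mem h1 h3, fun x => by rw [Pi.add_apply, Pi.add_apply, h2, h4]; ring⟩
  smul_mem' := by
    rintro r u ⟨h1, h2⟩
    exact ⟨S.smul_mem r h1, fun x => by
      rw [Pi.smul_apply, Pi.smul_apply, h2, smul_neg]⟩

theorem isRefl_of {s : G} {x₀ : X} (hss : s * s = 1) (hs1 : s ≠ 1)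
    (hst : ∀ γ : G, γ • x₀ = x₀ ↔ γ = 1 ∨ γ = s) {S : Submodule ℚ (X → ℚ)}
    (hS : Invariant G S) (hf : Faith G S) (hc : codimFix G x₀ S ≤ 1) : IsRefl s S := by
  -- a nonzero odd function
  have hne : ∃ u ∈ S, ∃ x, u (s • x) ≠ u x := by
    by_contra h
    push Not at h
    exact hs1 (hf s h)
  obtain ⟨u, hu, x1, hx1⟩ := hne
  have hodd : ∀ u ∈ S, u - tr s u ∈ oddPart s S := by
    intro u hu
    refine ⟨S.sub_mem hu (tr_mem hS s hu), fun x => ?_⟩
    simp only [Pi.sub_apply, tr_apply]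
    rw [← mul_smul, hss, one_smul]
    ring
  set F := fixedPart G x₀ S with hF
  set O := oddPart s S with hO
  have hFO : Disjoint F O := by
    rw [Submodule.disjoint_def]
    rintro w ⟨-, h1⟩ ⟨-, h2⟩
    funext x
    have h3 := h1 s ((hst s).2 (Or.inr rfl)) x
    have h4 := h2 x
    rw [h3] at h4
    have : w x = 0 := by linarith
    simpa using this
  have hle : F ⊔ O ≤ S := sup_le (fun w hw => hw.1) (fun w hw => hw.1)
  have hdim := Submodule.finrank_sup_add_finrank_inf_eq F O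
  rw [hFO.eq_bot, finrank_bot, add_zero] at hdim
  have h5 := Submodule.finrank_mono hle
  have hO1 : finrank ℚ O ≤ 1 := by
    have h6 : finrank ℚ S - finrank ℚ F ≤ 1 := hc
    omega
  have hα := hodd u hu
  have hα0 : u - tr s u ≠ 0 := by
    intro h
    apply hx1
    have h7 := congrFun h x1
    simp only [Pi.sub_apply, tr_apply, Pi.zero_apply] at h7
    linarith
  refine ⟨u - tr s u, hα.1, hα0, hα.2, fun w hw hw2 => ?_⟩
  obtain ⟨v, hv⟩ := finrank_le_one_iff.1 hO1
  obtain ⟨a, ha⟩ := hv ⟨u - tr s u, hα⟩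
  obtain ⟨b, hb⟩ := hv ⟨w, hw, hw2⟩
  have ha' : a • (v : X → ℚ) = u - tr s u := congrArg Subtype.val ha
  have hb' : b • (v : X → ℚ) = w := congrArg Subtype.val hb
  have ha0 : a ≠ 0 := by
    rintro rfl
    rw [zero_smul] at ha'
    exact hα0 ha'.symm
  refine ⟨b / a, ?_⟩
  rw [← ha', smul_smul, div_mul_cancel₀ _ ha0, hb']

/-- the sign of an element of the centralizer on the root -/
theorem exists_sign {s : G} {S : Submodule ℚ (X → ℚ)} (hS : Invariant G S) {α : X → ℚ}
    (hα : α ∈ S) (hodd : ∀ x, α (s • x) = - α x)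
    (hline : ∀ u ∈ S, (∀ x, u (s • x) = - u x) → ∃ r : ℚ, u = r • α) (γ : G)
    (hγ : γ * s = s * γ) : ∃ e : ℤˣ, tr γ α = ((e : ℤ) : ℚ) • α := by
  obtain ⟨r, hr⟩ := hline (tr γ α) (tr_mem hS γ hα) (fun x => by
    rw [tr_apply, tr_apply, ← mul_smul, hγ, mul_smul, hodd])
  by_cases h0 : α = 0
  · exact ⟨1, by rw [h0, map_zero, smul_zero]⟩
  have h6 : dot X (tr γ α) (tr γ α) = dot X α α := by
    rw [dot_tr, tr_inv_tr]
  rw [hr, map_smul, map_smul, LinearMap.smul_apply, smul_eq_mul, smul_eq_mul] at h6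
  have h7 : dot X α α ≠ 0 := fun h => h0 (dot_self h)
  have h8 : (r * r - 1) * dot X α α = 0 := by linarith
  have h9 := (mul_eq_zero.1 h8).resolve_right h7
  rcases mul_self_eq_one_iff.1 (show r * r = 1 by linarith) with h | h
  · exact ⟨1, by rw [hr, h]; simp⟩
  · exact ⟨-1, by rw [hr, h]; simp⟩

theorem sign_unique {α : X → ℚ} (h0 : α ≠ 0) {e e' : ℤˣ}
    (h : ((e : ℤ) : ℚ) • α = ((e' : ℤ) : ℚ) • α) : e = e' := by
  have h1 : (((e : ℤ) : ℚ) - ((e' : ℤ) : ℚ)) • α = 0 := by rw [sub_smul, h, sub_self]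
  have h2 := (smul_eq_zero.1 h1).resolve_right h0
  have h3 : ((e : ℤ) : ℚ) = ((e' : ℤ) : ℚ) := by linarith
  exact Units.ext (by exact_mod_cast h3)

/-- the character of the centralizer on the root -/
theorem exists_char {s : G} {S : Submodule ℚ (X → ℚ)} (hS : Invariant G S) (hr : IsRefl s S) :
    ∃ (α : X → ℚ) (ε : Subgroup.centralizer {s} →* ℤˣ), α ∈ S ∧ α ≠ 0 ∧
      (∀ x, α (s • x) = - α x) ∧ (∀ u ∈ S, (∀ x, u (s • x) = - u x) → ∃ r : ℚ, u = r • α) ∧
      ∀ γ : Subgroup.centralizer {s}, tr (γ : G) α = ((ε γ : ℤ) : ℚ) • α := by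
  obtain ⟨α, hα, hα0, hodd, hline⟩ := hr
  have hcen : ∀ γ : Subgroup.centralizer {s}, (γ : G) * s = s * γ := fun γ =>
    (Subgroup.mem_centralizer_singleton_iff.1 γ.2)
  choose e he using fun γ : Subgroup.centralizer {s} =>
    exists_sign hS hα hodd hline (γ : G) (hcen γ)
  refine ⟨α, MonoidHom.mk' e fun γ δ => ?_, hα, hα0, hodd, hline, fun γ => he γ⟩
  apply sign_unique hα0
  rw [← he (γ * δ), Subgroup.coe_mul, ← tr_tr, he γ, map_smul, he δ, smul_smul]
  push_cast
  rfl

end refl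

theorem q2 (hRe : P_refl) (hQ : P_quad) : P_q2 := by
  classical
  intro G X _ _ _ _ _ c s x₀ ι _ S hcc hcz hcx hst hs1 hS hkill hfaith hcod
  rcases isEmpty_or_nonempty ι with hι | ⟨⟨i₀⟩⟩
  · rw [Fintype.card_eq_zero]
    exact Nat.zero_le _
  have hsx : s • x₀ = x₀ := (hst s).2 (Or.inr rfl)
  have hss : s * s = 1 := by
    rcases (hst (s * s)).1 (by rw [mul_smul, hsx, hsx]) with h | h
    · exact h
    · exact absurd (mul_eq_left.1 h) hs1
  have hcs : c ≠ s := by
    rintro rfl
    exact hcx x₀ hsx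
  have hc1 : c ≠ 1 := by
    rintro rfl
    exact hcx x₀ (one_smul G x₀)
  have hrefl : ∀ i, IsRefl s (S i) := fun i =>
    isRefl_of hss hs1 hst (hS i).2.1 (hfaith i) (hcod i)
  choose α ε hα hα0 hodd hline hε using fun i => exists_char (hS i).2.1 (hrefl i)
  let C : Subgroup G := Subgroup.centralizer {s}
  have hsC : s ∈ C := Subgroup.mem_centralizer_singleton_iff.2 rfl
  have hcC : c ∈ C := Subgroup.mem_centralizer_singleton_iff.2 (hcz s)
  let s' : C := ⟨s, hsC⟩
  let c' : C := ⟨c, hcC⟩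
  have hεs : ∀ i, ε i s' = -1 := fun i => by
    apply sign_unique (hα0 i)
    rw [← hε i s']
    funext x
    have := hodd i x
    simp only [tr_apply, Pi.smul_apply, smul_eq_mul, Units.val_neg, Units.val_one, Int.cast_neg,
      Int.cast_one, neg_mul, one_mul]
    exact this
  have hεc : ∀ i, ε i c' = -1 := fun i => by
    apply sign_unique (hα0 i)
    rw [← hε i c']
    funext x
    have := (hS i).2.2.1 (α i) (hα i) x
    simp only [tr_apply, Pi.smul_apply, smul_eq_mul, Units.val_neg, Units.val_one, Int.cast_neg,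
      Int.cast_one, neg_mul, one_mul]
    exact this
  -- what the condition of `P_refl` means
  have hcond : ∀ i (γ : G) (hγ : γ * s = s * γ),
      ((∀ u ∈ S i, (∀ x, u (s • x) = - u x) → ∀ x, u (γ • x) = u x) ↔
        ε i ⟨γ, Subgroup.mem_centralizer_singleton_iff.2 hγ⟩ = 1) := by
    intro i γ hγ
    have h1 := hε i ⟨γ, Subgroup.mem_centralizer_singleton_iff.2 hγ⟩
    constructor
    · intro h
      apply sign_unique (hα0 i)
      rw [← h1]
      funext x
      simp only [tr_apply, Units.val_one, Int.cast_one, one_smul]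
      exact h (α i) (hα i) (hodd i) x
    · intro h u hu hu2 x
      obtain ⟨r, rfl⟩ := hline i u hu hu2
      rw [h] at h1
      have h2 := congrFun h1 x
      simp only [tr_apply, Units.val_one, Int.cast_one, one_smul] at h2
      rw [Pi.smul_apply, Pi.smul_apply, h2]
  have hinj : Function.Injective ε := by
    intro i j hij
    by_contra hne
    apply hkill i j hne
    refine hRe G X (fun x : X => c • x) s (S i) (S j) (hS i) (hS j) (hfaith i) (hfaith j) hss
      (hrefl i) (hrefl j) fun γ hγ => ?_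
    rw [hcond i γ hγ, hcond j γ hγ, hij]
  haveI : Finite (C →* ℤˣ) := Finite.of_injective (fun f => (f : C → ℤˣ)) DFunLike.coe_injective
  letI : Fintype C := Fintype.ofFinite C
  have h1 : Nat.card ι ≤ Nat.card {ψ : C →* ℤˣ // ψ s' = 1 ∧ ψ c' = 1} := by
    refine Nat.card_le_card_of_injective
      (fun i => ⟨ε i * ε i₀, by
        rw [MonoidHom.mul_apply, hεs, hεs]; simp, by
        rw [MonoidHom.mul_apply, hεc, hεc]; simp⟩) fun i j hij => ?_
    have h2 : ε i * ε i₀ = ε j * ε i₀ := congrArg Subtype.val hij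
    exact hinj (mul_right_cancel h2)
  have h2 := hQ C s' c' (fun x => Subtype.ext
      (Subgroup.mem_centralizer_singleton_iff.1 x.2).symm)
    (fun x => Subtype.ext (hcz x)) (Subtype.ext hss) (Subtype.ext hcc)
    (fun h => hc1 (congrArg Subtype.val h)) (fun h => hcs (congrArg Subtype.val h))
  have h3 : {A : Subgroup C | s' ∈ A ∧ c' ∉ A}.ncard ≤ numSub G c x₀ := by
    unfold numSub
    refine Set.ncard_le_ncard_of_injOn (fun A : Subgroup C => A.map C.subtype) ?_ ?_ (Set.toFinite _)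
    · rintro A ⟨hA1, hA2⟩
      refine ⟨fun γ hγ => ?_, ?_⟩
      · rcases (hst γ).1 hγ with rfl | rfl
        · exact one_mem _
        · exact ⟨s', hA1, rfl⟩
      · rintro ⟨a, ha, hac⟩
        apply hA2
        have : a = c' := Subtype.ext hac
        rwa [this] at ha
    · intro A _ B _ hAB
      exact Subgroup.map_injective Subtype.val_injective hAB
  rw [← Nat.card_eq_fintype_card]
  refine h1.trans (h2.trans ?_)
  gcongr

end Pool.Agent.Y497.KN
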